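import Pool.Agent.H44D.Stmts

/-!
MP_a4a5b6_lc, project H44-DARJI: Task C1 (random walk concentration).
-/

set_option autoImplicit false

open Set Filter Topology MeasureTheory
open scoped Pointwise ENNReal

namespace H44D

namespace C1x

variable {G : Type} [Group G]

open Classical in
/-- probability that the `j`-fold product of the steps lies in the coset `x H` -/
noncomputable def q {ι : Type} [Fintype ι] (w : ι → ℝ) (r : ι → G) (H : Subgroup G) :
    ℕ → G → ℝ
  | 0, x => if x⁻¹ ∈ H then 1 else 0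
  | (j + 1), x => ∑ i, w i * q w r H j ((r i)⁻¹ * x)

lemma q_nonneg {ι : Type} [Fintype ι] {w : ι → ℝ} (hw : FinProb w) (r : ι → G)
    (H : Subgroup G) (j : ℕ) : ∀ x, 0 ≤ q w r H j x := by
  induction j with
  | zero =>
    intro x
    unfold q
    split_ifs <;> norm_num
  | succ j ih =>
    intro x
    unfold q
    exact Finset.sum_nonneg fun i _ => mul_nonneg (hw.1 i) (ih _)

lemma q_zero_le {ι : Type} [Fintype ι] (w : ι → ℝ) (r : ι → G)
    (H : Subgroup G) (x : G) : q w r H 0 x ≤ 1 := by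
  unfold q
  split_ifs <;> norm_num

lemma pr_le_one {ι : Type} [Fintype ι] {w : ι → ℝ} (hw : FinProb w) (P : ι → Prop) :
    pr w P ≤ 1 := by
  classical
  unfold pr
  rw [← hw.2]
  apply Finset.sum_le_sum
  intro i _
  split_ifs
  · exact le_rfl
  · exact hw.1 i

/-- the law of the product of `j` steps -/
lemma walk {ι : Type} [Fintype ι] {w : ι → ℝ} (hw : FinProb w) (r : ι → G) (V : Set G)
    (hr : ∀ i, r i ∈ V) (j : ℕ) : ∃ (κ : Type) (_ : Fintype κ) (v : κ → ℝ) (s : κ → G),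
      FinProb v ∧ (∀ i, s i ∈ V ^ j) ∧
      ∀ (H : Subgroup G) (x : G), pr v (fun i => x⁻¹ * s i ∈ H) = q w r H j x := by
  classical
  induction j with
  | zero =>
    refine ⟨Unit, inferInstance, fun _ => 1, fun _ => 1, ⟨fun _ => zero_le_one, by simp⟩,
      fun _ => by simp, fun H x => ?_⟩
    unfold pr q
    simp
  | succ j ih =>
    obtain ⟨κ, hκ, v, s, hv, hs, hq⟩ := ih
    refine ⟨ι × κ, inferInstance, fun p => w p.1 * v p.2, fun p => r p.1 * s p.2,
      ⟨fun p => mul_nonneg (hw.1 _) (hv.1 _), ?_⟩, fun p => ?_, fun H x => ?_⟩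
    · rw [Fintype.sum_prod_type]
      simp only
      simp_rw [← Finset.mul_sum, hv.2, mul_one]
      exact hw.2
    · rw [pow_succ']
      exact Set.mul_mem_mul (hr _) (hs _)
    · unfold pr
      rw [Fintype.sum_prod_type]
      show _ = ∑ i, w i * q w r H j ((r i)⁻¹ * x)
      apply Finset.sum_congr rfl
      intro i _
      rw [← hq H ((r i)⁻¹ * x)]
      unfold pr
      rw [Finset.mul_sum]
      apply Finset.sum_congr rfl
      intro t _
      have e : x⁻¹ * (r i * s t) = ((r i)⁻¹ * x)⁻¹ * s t := by group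
      simp only [e]
      split_ifs <;> simp

lemma exists_pow_subset [TopologicalSpace G] [IsTopologicalGroup G] (k : ℕ) :
    ∀ V ∈ 𝓝 (1 : G), ∃ V' ∈ 𝓝 (1 : G), V' ^ k ⊆ V := by
  induction k with
  | zero =>
    intro V hV
    refine ⟨univ, univ_mem, ?_⟩
    rw [pow_zero]
    intro x hx
    rw [Set.mem_one] at hx
    rw [hx]
    exact mem_of_mem_nhds hV
  | succ k ih =>
    intro V hV
    obtain ⟨W, hW, hWV⟩ := exists_nhds_one_split hV
    obtain ⟨V'', hV'', h⟩ := ih W hW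
    refine ⟨V'' ∩ W, inter_mem hV'' hW, ?_⟩
    rw [pow_succ']
    rintro _ ⟨x, hx, y, hy, rfl⟩
    refine hWV x hx.2 y (h ?_)
    exact Set.pow_subset_pow_left inter_subset_left hy

/-- number of heavy cosets -/
lemma card_le {κ : Type} [Fintype κ] {v : κ → ℝ} (hv : FinProb v) (s : κ → G) (H : Subgroup G)
    (Y : Finset (G ⧸ H)) (c : ℝ) (hc : 0 < c)
    (hY : ∀ y ∈ Y, c / 2 ≤ pr v (fun i => (QuotientGroup.mk (s i) : G ⧸ H) = y)) :
    Y.card ≤ ⌊2 / c⌋₊ := by
  classical
  rw [Nat.le_floor_iff (by positivity), le_div_iff₀ hc]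
  have h1 : (Y.card : ℝ) * (c / 2) ≤
      ∑ y ∈ Y, pr v (fun i => (QuotientGroup.mk (s i) : G ⧸ H) = y) := by
    have := Finset.card_nsmul_le_sum Y
      (fun y => pr v (fun i => (QuotientGroup.mk (s i) : G ⧸ H) = y)) (c / 2) hY
    rwa [nsmul_eq_mul] at this
  have h2 : ∑ y ∈ Y, pr v (fun i => (QuotientGroup.mk (s i) : G ⧸ H) = y) ≤ 1 := by
    unfold pr
    rw [Finset.sum_comm, ← hv.2]
    apply Finset.sum_le_sum
    intro i _
    dsimp only
    by_cases hi : (QuotientGroup.mk (s i) : G ⧸ H) ∈ Y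
    · refine le_trans (le_of_eq (Finset.sum_eq_single_of_mem _ hi ?_)) ?_
      · intro y _ hne
        exact if_neg (Ne.symm hne)
      · split_ifs
        · exact le_rfl
        · exact hv.1 i
    · rw [Finset.sum_eq_zero]
      · exact hv.1 i
      · intro y hy
        refine if_neg ?_
        rintro rfl
        exact hi hy
  linarith

/-- the pigeonhole on scales -/
lemma scale {ι : Type} [Fintype ι] {w : ι → ℝ} (hw : FinProb w) (r : ι → G) (H : Subgroup G)
    (c θ : ℝ) (hc : 0 < c) (hθ : 0 < θ) (hθ1 : θ < 1) (k : ℕ) (hk : θ ^ k < c) (a : G)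
    (ha : c ≤ q w r H k a) :
    ∃ j < k, ∃ x : G, ∃ i₀ : ι, c ≤ q w r H (j + 1) x ∧
      (∀ i, q w r H j ((r i)⁻¹ * x) ≤ q w r H j ((r i₀)⁻¹ * x)) ∧
      θ * q w r H j ((r i₀)⁻¹ * x) ≤ q w r H (j + 1) x := by
  classical
  have hne : Nonempty ι := by
    by_contra h
    rw [not_nonempty_iff] at h
    have := hw.2
    simp at this
  have hmax : ∀ (j : ℕ) (x : G), ∃ i₀ : ι, ∀ i, q w r H j ((r i)⁻¹ * x) ≤
      q w r H j ((r i₀)⁻¹ * x) := by
    intro j x
    obtain ⟨i₀, _, h⟩ := Finset.exists_max_image (Finset.univ : Finset ι)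
      (fun i => q w r H j ((r i)⁻¹ * x)) Finset.univ_nonempty
    exact ⟨i₀, fun i => h i (Finset.mem_univ i)⟩
  by_contra hcon
  push Not at hcon
  have key : ∀ n ≤ k, ∀ x, c ≤ q w r H n x → q w r H n x ≤ θ ^ n := by
    intro n
    induction n with
    | zero =>
      intro _ x _
      rw [pow_zero]
      exact q_zero_le w r H x
    | succ n ih =>
      intro hn x hx
      obtain ⟨i₀, hi₀⟩ := hmax n x
      have h1 := hcon n (by omega) x i₀ hx hi₀
      have h2 : 0 ≤ q w r H n ((r i₀)⁻¹ * x) := q_nonneg hw r H n _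
      have h3 : c ≤ q w r H n ((r i₀)⁻¹ * x) := by nlinarith
      have h4 := ih (by omega) _ h3
      rw [pow_succ]
      nlinarith
  have := key k le_rfl a ha
  linarith

end C1x

open C1x

theorem taskC1 : TaskC1 := by
  classical
  intro G _ _ _ U V c hV hc hcos
  refine ⟨⌊2 / c⌋₊, fun η hη => ?_⟩
  obtain ⟨θ, hθ0, hθ1, hθη⟩ : ∃ θ : ℝ, 0 < θ ∧ θ < 1 ∧ 2 * (1 - θ) ≤ η := by
    refine ⟨max (1 / 2) (1 - η / 2), lt_max_of_lt_left (by norm_num),
      max_lt (by norm_num) (by linarith), ?_⟩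
    have := le_max_right (1 / 2 : ℝ) (1 - η / 2)
    linarith
  obtain ⟨k, hk⟩ := exists_pow_lt_of_lt_one hc hθ1
  obtain ⟨V', hV', hVk⟩ := exists_pow_subset k V hV
  refine ⟨V', hV', ?_⟩
  intro ι _ w r hw hr
  have h1V' : (1 : G) ∈ V' := mem_of_mem_nhds hV'
  have hpow : ∀ j ≤ k, V' ^ j ⊆ V := fun j hj =>
    (Set.pow_subset_pow_right h1V' hj).trans hVk
  -- the coset
  obtain ⟨κ, hκ, v, s, hv, hs, hq⟩ := walk hw r V' hr k
  obtain ⟨H, a, hHU, ha⟩ := hcos κ v s hv (fun i => hpow k le_rfl (hs i))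
  rw [hq H a] at ha
  obtain ⟨j, hjk, x, i₀, hx, hmax, hθx⟩ := scale hw r H c θ hc hθ0 hθ1 k hk a ha
  -- laws of the `j`- and `(j+1)`-fold products
  obtain ⟨κ1, hκ1, v1, s1, hv1, hs1, hq1⟩ := walk hw r V' hr j
  obtain ⟨κ2, hκ2, v2, s2, hv2, hs2, hq2⟩ := walk hw r V' hr (j + 1)
  set p : ℝ := q w r H j ((r i₀)⁻¹ * x) with hp
  have hxp : q w r H (j + 1) x ≤ p := by
    show ∑ i, w i * q w r H j ((r i)⁻¹ * x) ≤ p
    calc ∑ i, w i * q w r H j ((r i)⁻¹ * x) ≤ ∑ i, w i * p :=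
          Finset.sum_le_sum fun i _ => mul_le_mul_of_nonneg_left (hmax i) (hw.1 i)
      _ = p := by rw [← Finset.sum_mul, hw.2, one_mul]
  have hpc : c ≤ p := hx.trans hxp
  have hp0 : 0 < p := lt_of_lt_of_le hc hpc
  -- the heavy cosets
  let M : Finset ι := Finset.univ.filter fun i => p / 2 ≤ q w r H j ((r i)⁻¹ * x)
  let Y : Finset (G ⧸ H) := M.image fun i => (QuotientGroup.mk ((r i)⁻¹ * x) : G ⧸ H)
  let T : Finset G := Y.image fun y => x * (Quotient.out y)⁻¹
  refine ⟨H.map (MulAut.conj x).toMonoidHom, T, ?_, ?_, ?_⟩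
  · -- the conjugate is contained in `V U V⁻¹`
    rintro _ ⟨h, hh, rfl⟩
    have hpos : 0 < pr v2 (fun i => x⁻¹ * s2 i ∈ H) := by
      rw [hq2]
      linarith
    obtain ⟨t, ht⟩ : ∃ t, x⁻¹ * s2 t ∈ H := by
      by_contra hno
      push Not at hno
      unfold pr at hpos
      rw [Finset.sum_eq_zero] at hpos
      · exact lt_irrefl _ hpos
      · intro i _
        rw [if_neg (hno i)]
    have hsV : s2 t ∈ V := hpow (j + 1) (by omega) (hs2 t)
    refine ⟨s2 t * ((x⁻¹ * s2 t)⁻¹ * h * (x⁻¹ * s2 t)), ⟨s2 t, hsV, _, hHU ?_, rfl⟩,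
      (s2 t)⁻¹, Set.inv_mem_inv.2 hsV, ?_⟩
    · exact H.mul_mem (H.mul_mem (H.inv_mem ht) hh) ht
    · show s2 t * ((x⁻¹ * s2 t)⁻¹ * h * (x⁻¹ * s2 t)) * (s2 t)⁻¹ = x * h * x⁻¹
      group
  · -- cardinality
    refine Finset.card_image_le.trans (card_le hv1 s1 H Y c hc ?_)
    intro y hy
    obtain ⟨i, hi, rfl⟩ := Finset.mem_image.1 hy
    have h1 := (Finset.mem_filter.1 hi).2
    have h2 : pr v1 (fun t => (QuotientGroup.mk (s1 t) : G ⧸ H) =
        QuotientGroup.mk ((r i)⁻¹ * x)) = q w r H j ((r i)⁻¹ * x) := by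
      rw [← hq1]
      unfold pr
      apply Finset.sum_congr rfl
      intro t _
      have : ((QuotientGroup.mk (s1 t) : G ⧸ H) = QuotientGroup.mk ((r i)⁻¹ * x)) ↔
          ((r i)⁻¹ * x)⁻¹ * s1 t ∈ H := by
        rw [eq_comm, QuotientGroup.eq]
      simp only [this]
    rw [h2]
    linarith
  · -- mass
    have hsub : ∀ i ∈ M, ∃ t ∈ T, r i * t⁻¹ ∈ H.map (MulAut.conj x).toMonoidHom := by
      intro i hi
      set y : G ⧸ H := QuotientGroup.mk ((r i)⁻¹ * x) with hy
      refine ⟨x * (Quotient.out y)⁻¹, Finset.mem_image_of_mem _ (Finset.mem_image_of_mem _ hi), ?_⟩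
      have h1 : (QuotientGroup.mk (Quotient.out y) : G ⧸ H) = QuotientGroup.mk ((r i)⁻¹ * x) := by
        rw [← hy]
        exact Quotient.out_eq y
      rw [eq_comm, QuotientGroup.eq] at h1
      refine ⟨_, h1, ?_⟩
      show x * (((r i)⁻¹ * x)⁻¹ * Quotient.out y) * x⁻¹ = r i * (x * (Quotient.out y)⁻¹)⁻¹
      group
    have hM : pr w (fun i => i ∈ M) ≤
        pr w (fun i => ∃ t ∈ T, r i * t⁻¹ ∈ H.map (MulAut.conj x).toMonoidHom) := by
      unfold pr
      apply Finset.sum_le_sum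
      intro i _
      by_cases hi : i ∈ M
      · rw [if_pos hi, if_pos (hsub i hi)]
      · rw [if_neg hi]
        split_ifs
        · exact hw.1 i
        · exact le_rfl
    refine le_trans ?_ hM
    -- Markov
    have h1 : q w r H (j + 1) x ≤ ∑ i, (if i ∈ M then w i * p else w i * (p / 2)) := by
      show ∑ i, w i * q w r H j ((r i)⁻¹ * x) ≤ _
      apply Finset.sum_le_sum
      intro i _
      split_ifs with hi
      · exact mul_le_mul_of_nonneg_left (hmax i) (hw.1 i)
      · apply mul_le_mul_of_nonneg_left _ (hw.1 i)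
        by_contra hlt
        push Not at hlt
        exact hi (Finset.mem_filter.2 ⟨Finset.mem_univ i, hlt.le⟩)
    have h2 : ∑ i, (if i ∈ M then w i * p else w i * (p / 2)) =
        p / 2 + (p / 2) * pr w (fun i => i ∈ M) := by
      have e : ∀ i, (if i ∈ M then w i * p else w i * (p / 2)) =
          w i * (p / 2) + (p / 2) * (if i ∈ M then w i else 0) := by
        intro i
        split_ifs <;> ring
      have e2 : pr w (fun i => i ∈ M) = ∑ i, if i ∈ M then w i else 0 := by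
        unfold pr
        exact Finset.sum_congr rfl fun i _ => by congr
      rw [Finset.sum_congr rfl fun i _ => e i, Finset.sum_add_distrib, ← Finset.sum_mul, hw.2,
        one_mul, ← Finset.mul_sum, e2]
    rw [h2] at h1
    have h3 : θ * p ≤ p / 2 + (p / 2) * pr w (fun i => i ∈ M) := hθx.trans h1
    have h4 : θ ≤ 1 / 2 + (1 / 2) * pr w (fun i => i ∈ M) := by
      have : p * θ ≤ p * (1 / 2 + (1 / 2) * pr w (fun i => i ∈ M)) := by linarith
      exact le_of_mul_le_mul_left this hp0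
    linarith

end H44D
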