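import Pool.Agent.H913R3.MH.Stmts

/-!
MP_3013d0_nt: one step of the tree argument (Task 2).
-/

open MeasureTheory Set Filter Topology
open scoped ENNReal

namespace H913R3.MH

namespace Step722

/-- pairwise disjoint balls inside an interval: the sum of the radii is at most half the length -/
lemma sum_radii_le (T : Finset (ℕ × ℝ)) (R : ℕ → ℝ) (u d : ℝ) (hd : 0 ≤ d)
    (hR : ∀ p ∈ T, 0 < R p.1)
    (hdis : ∀ p ∈ T, ∀ p' ∈ T, p ≠ p' → R p.1 + R p'.1 < |p.2 - p'.2|)
    (hin : ∀ p ∈ T, |p.2 - u| + R p.1 ≤ d) : ∑ p ∈ T, R p.1 ≤ d := by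
  have hmeas : ∀ p ∈ T, MeasurableSet (Icc (p.2 - R p.1) (p.2 + R p.1)) :=
    fun p _ => measurableSet_Icc
  have hpd : (T : Set (ℕ × ℝ)).PairwiseDisjoint (fun p => Icc (p.2 - R p.1) (p.2 + R p.1)) := by
    intro p hp p' hp' hne
    rw [Function.onFun, Set.disjoint_left]
    intro t ht ht'
    have h := hdis p hp p' hp' hne
    have h1 : |p.2 - p'.2| ≤ R p.1 + R p'.1 := by
      rw [abs_le]
      constructor <;> linarith [ht.1, ht.2, ht'.1, ht'.2]
    linarith
  have h1 := measure_biUnion_finset (μ := volume) hpd hmeas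
  have h2 : (⋃ p ∈ T, Icc (p.2 - R p.1) (p.2 + R p.1)) ⊆ Icc (u - d) (u + d) := by
    intro t ht
    simp only [Set.mem_iUnion] at ht
    obtain ⟨p, hp, ht⟩ := ht
    have h := hin p hp
    have h3 := abs_le.1 (show |p.2 - u| ≤ d - R p.1 by linarith)
    constructor <;> linarith [ht.1, ht.2, h3.1, h3.2]
  have h3 := measure_mono (μ := volume) h2
  rw [h1] at h3
  simp only [Real.volume_Icc] at h3
  rw [← ENNReal.ofReal_sum_of_nonneg (fun p hp => by linarith [hR p hp])] at h3
  have h4 := (ENNReal.ofReal_le_ofReal_iff (by linarith)).1 h3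
  have h5 : ∑ p ∈ T, (p.2 + R p.1 - (p.2 - R p.1)) = 2 * ∑ p ∈ T, R p.1 := by
    rw [Finset.mul_sum]
    apply Finset.sum_congr rfl
    intros
    ring
  linarith

/-- averaging over the children -/
lemma averaging {ι : Type*} (T : Finset ι) (Met : ι → ℕ → Prop) (MetJ : ℕ → Prop)
    (w : ℕ → ℝ) (v : ι → ℝ) (hw : ∀ l, 0 < w l) (hsw : Summable w) (hv : ∀ i ∈ T, 0 ≤ v i)
    (h1 : ∀ i ∈ T, ∀ l, Met i l → MetJ l)
    (h2 : ∀ l, ∀ i ∈ T, ∀ j ∈ T, i ≠ j → Met i l → Met j l →
      ∀ T' ⊆ T, (∀ k ∈ T', Met k l) → ∑ k ∈ T', v k ≤ w l)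
    (h3 : ∑' l, Set.indicator {l | MetJ l} w l < ∑ i ∈ T, v i) :
    ∃ i ∈ T, ∑' l, Set.indicator {l | Met i l} w l < v i := by
  classical
  by_contra hcon
  push Not at hcon
  let f : ι → ℕ → ℝ := fun i l =>
    if Met i l then (if ∃ j ∈ T, j ≠ i ∧ Met j l then v i else w l) else 0
  have hf0 : ∀ i ∈ T, ∀ l, 0 ≤ f i l := by
    intro i hi l
    simp only [f]
    split_ifs
    · exact hv i hi
    · exact (hw l).le
    · exact le_rfl
  have hsum : ∀ l, ∑ i ∈ T, f i l ≤ Set.indicator {l | MetJ l} w l := by
    intro l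
    by_cases hmul : ∃ i ∈ T, ∃ j ∈ T, i ≠ j ∧ Met i l ∧ Met j l
    · obtain ⟨i, hi, j, hj, hij, hil, hjl⟩ := hmul
      have hJ : l ∈ {l | MetJ l} := h1 i hi l hil
      rw [Set.indicator_of_mem hJ]
      refine le_trans (le_of_eq ?_) (h2 l i hi j hj hij hil hjl (T.filter (fun k => Met k l))
        (Finset.filter_subset _ _) (fun k hk => (Finset.mem_filter.1 hk).2))
      rw [Finset.sum_filter]
      apply Finset.sum_congr rfl
      intro k hk
      simp only [f]
      by_cases hkl : Met k l
      · have : ∃ j ∈ T, j ≠ k ∧ Met j l := by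
          by_cases hki : i = k
          · exact ⟨j, hj, by rw [← hki]; exact hij.symm, hjl⟩
          · exact ⟨i, hi, hki, hil⟩
        rw [if_pos hkl, if_pos this, if_pos hkl]
      · rw [if_neg hkl, if_neg hkl]
    · push Not at hmul
      by_cases hone : ∃ i ∈ T, Met i l
      · obtain ⟨i, hi, hil⟩ := hone
        have hJ : l ∈ {l | MetJ l} := h1 i hi l hil
        rw [Set.indicator_of_mem hJ]
        rw [Finset.sum_eq_single_of_mem i hi]
        · simp only [f]
          rw [if_pos hil, if_neg]
          rintro ⟨j, hj, hji, hjl⟩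
          exact hmul j hj i hi hji hjl hil
        · intro j hj hji
          simp only [f]
          rw [if_neg]
          intro hjl
          exact hmul j hj i hi hji hjl hil
      · push Not at hone
        rw [Finset.sum_eq_zero]
        · exact Set.indicator_nonneg (fun l _ => (hw l).le) l
        · intro i hi
          simp only [f]
          rw [if_neg (hone i hi)]
  have hind : ∀ s : Set ℕ, Summable (Set.indicator s w) := fun s => hsw.indicator s
  have hfs : ∀ i ∈ T, Summable (f i) := by
    intro i hi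
    refine Summable.of_nonneg_of_le (hf0 i hi) (fun l => ?_) (hind {l | MetJ l})
    exact le_trans (Finset.single_le_sum (f := fun j => f j l) (fun j hj => hf0 j hj l) hi) (hsum l)
  have hlow : ∀ i ∈ T, v i ≤ ∑' l, f i l := by
    intro i hi
    by_cases hB : ∃ l, Met i l ∧ ∃ j ∈ T, j ≠ i ∧ Met j l
    · obtain ⟨l, hil, hj⟩ := hB
      have : f i l = v i := by simp only [f]; rw [if_pos hil, if_pos hj]
      rw [← this]
      exact (hfs i hi).le_tsum l (fun b _ => hf0 i hi b)
    · push Not at hB
      refine le_trans (hcon i hi) (le_of_eq (tsum_congr fun l => ?_))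
      by_cases hil : Met i l
      · rw [Set.indicator_of_mem (show l ∈ {l | Met i l} from hil)]
        simp only [f]
        rw [if_pos hil, if_neg]
        rintro ⟨j, hj, hji, hjl⟩
        exact hB l hil j hj hji hjl
      · rw [Set.indicator_of_notMem (show l ∉ {l | Met i l} from hil)]
        simp only [f]
        rw [if_neg hil]
  have h4 : ∑ i ∈ T, v i ≤ ∑' l, Set.indicator {l | MetJ l} w l := by
    calc ∑ i ∈ T, v i ≤ ∑ i ∈ T, ∑' l, f i l := Finset.sum_le_sum hlow
      _ = ∑' l, ∑ i ∈ T, f i l := (Summable.tsum_finsetSum hfs).symm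
      _ ≤ _ := Summable.tsum_le_tsum hsum (summable_sum hfs) (hind _)
  linarith

end Step722

open Step722

theorem taskStep (hG : TaskGreedy) : TaskStep := by
  classical
  intro g Cg hCg hgpos hgmono hgquasi hginf c σ A K K' r₀ hc hσ hcσ hA hK hr₀ hK' P M ρ hM hMA hρ
    hρM hsep hcount hdiv E δ w hw hsw hδ hE hgδ a b mass k₀ ha hab hb hmass hinv hweight
  -- basic quantities
  have hcσ0 : 0 < c * σ := mul_pos hc hσ
  have hba : 0 < b - a := by linarith
  have hCg0 : 0 < Cg := by linarith
  have hK'0 : 0 < K' := by rw [hK']; positivity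
  obtain ⟨η, hη⟩ : ∃ η : ℝ, η = 32 * K' * mass / (c * σ * (b - a)) := ⟨_, rfl⟩
  have hη0 : 0 < η := by rw [hη]; positivity
  obtain ⟨R, hRdef⟩ : ∃ R : ℕ → ℝ, ∀ k, R k = min (g (ρ k) / η) (σ / (4 * M k)) :=
    ⟨fun k => min (g (ρ k) / η) (σ / (4 * M k)), fun _ => rfl⟩
  have hR0 : ∀ k, 0 < R k := by
    intro k
    rw [hRdef]
    exact lt_min (div_pos (hgpos _ (hρ k)) hη0) (by have := hM k; positivity)
  -- M k → ∞
  have hA1 : 1 < A := by
    have : 0 < 64 / (c * σ) := by positivity
    linarith
  have hMge : ∀ k, A ^ k * M 0 ≤ M k := by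
    intro k
    induction k with
    | zero => simp
    | succ n ih =>
      calc A ^ (n+1) * M 0 = A * (A ^ n * M 0) := by ring
        _ ≤ A * M n := mul_le_mul_of_nonneg_left ih (by linarith)
        _ ≤ M (n+1) := hMA n
  have hMtop : Tendsto M atTop atTop := by
    refine tendsto_atTop_mono hMge ?_
    exact (tendsto_pow_atTop_atTop_of_one_lt hA1).atTop_mul_const (hM 0)
  have hR1 : ∀ k, R k ≤ σ / (4 * M k) := fun k => by rw [hRdef]; exact min_le_right _ _
  have hR2 : ∀ k, R k ≤ g (ρ k) / η := fun k => by rw [hRdef]; exact min_le_left _ _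
  have hσM : Tendsto (fun k => σ / (4 * M k)) atTop (𝓝 0) := by
    apply Tendsto.const_div_atTop
    exact hMtop.const_mul_atTop (by norm_num)
  -- rho -> 0
  have hρle : ∀ k, ρ k ≤ σ / (4 * M k) := by
    intro k
    have h4 : 0 < 4 * M k := by have := hM k; positivity
    rw [le_div_iff₀ h4]
    have := hρM k
    linarith
  obtain ⟨rη, hrη, hgη⟩ := hginf η
  have hev1 : ∀ᶠ k in atTop, ρ k ≤ R k := by
    filter_upwards [hσM.eventually (gt_mem_nhds hrη)] with k hk
    rw [hRdef]
    refine le_min ?_ (hρle k)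
    rw [le_div_iff₀ hη0, mul_comm]
    exact hgη _ (hρ k) (le_trans (hρle k) hk.le)
  have hev2 : ∀ᶠ k in atTop, R k ≤ c * σ * (b - a) / 64 := by
    filter_upwards [hσM.eventually
      (gt_mem_nhds (show 0 < c * σ * (b - a) / 64 by positivity))] with k hk
    exact le_trans (hR1 k) hk.le
  obtain ⟨kc, hkc⟩ := hcount (a + (b - a) / 4) (b - (b - a) / 4) (by linarith) (by linarith)
    (by linarith)
  obtain ⟨k1, hk1⟩ := eventually_atTop.1 (hev1.and hev2)
  -- not summable
  have hdivR : ¬ Summable fun k => M k * R k := by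
    intro hs
    have ht := hs.tendsto_atTop_zero
    have hev : ∀ᶠ k in atTop, M k * R k < σ / 4 :=
      ht.eventually (gt_mem_nhds (show 0 < σ / 4 by positivity))
    have hev' : (fun k => M k * g (ρ k)) =ᶠ[atTop] fun k => η * (M k * R k) := by
      filter_upwards [hev] with k hk
      have hMk := hM k
      have : R k = g (ρ k) / η := by
        rw [hRdef]
        apply min_eq_left
        by_contra hlt
        push Not at hlt
        have h : R k = σ / (4 * M k) := by rw [hRdef]; exact min_eq_right hlt.le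
        rw [h] at hk
        have : M k * (σ / (4 * M k)) = σ / 4 := by field_simp
        linarith
      rw [this]
      field_simp
    apply hdiv
    exact (summable_congr_atTop hev').2 (hs.mul_left η)
  have hA' : 1 + 32 / (c / 2 * σ) ≤ A := by
    have : 32 / (c / 2 * σ) = 64 / (c * σ) := by field_simp; norm_num
    rw [this]
    exact hA
  obtain ⟨T, hT1, hT2, hT3⟩ := hG (c / 2) σ A (by positivity) hσ hA' P M R a b
    (max k₀ (max kc k1)) hab hM hMA hR0
    (by
      intro k
      have hMk := hM k
      calc R k * M k ≤ σ / (4 * M k) * M k := mul_le_mul_of_nonneg_right (hR1 k) hMk.le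
        _ = σ / 4 := by field_simp)
    hsep
    (by
      intro k hk
      have h := hkc k (le_trans (le_trans (le_max_left _ _) (le_max_right _ _)) hk)
      refine le_trans (le_of_eq ?_) h
      ring)
    hdivR
  obtain ⟨S, hS⟩ : ∃ S : ℝ, S = ∑ p ∈ T, R p.1 := ⟨_, rfl⟩
  rw [← hS] at hT3
  have hS1 : c * σ * (b - a) / 32 ≤ S := by
    refine le_trans (le_of_eq ?_) hT3
    ring
  have hcsb : 0 < c * σ * (b - a) := by positivity
  have hS0 : 0 < S := by linarith
  -- facts about a child
  have hchild : ∀ p ∈ T, ρ p.1 ≤ R p.1 ∧ R p.1 ≤ c * σ * (b - a) / 64 := by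
    intro p hp
    exact hk1 p.1 (le_trans (le_trans (le_max_right _ _) (le_max_right _ _)) (hT1 p hp).1)
  have hv : ∀ p ∈ T, 0 ≤ K * (mass * R p.1 / S) := by
    intro p hp
    have := hR0 p.1
    positivity
  have hsub : ∀ p ∈ T, Icc (p.2 - ρ p.1 / 2) (p.2 + ρ p.1 / 2) ⊆ Icc a b := by
    intro p hp t ht
    have h1 := hT1 p hp
    have h2 := hchild p hp
    have h3 := hρ p.1
    constructor <;> linarith [ht.1, ht.2, h1.2.2.1, h1.2.2.2, h2.1]
  obtain ⟨p, hp, hpw⟩ := averaging T
    (fun p l => (E l ∩ Icc (p.2 - ρ p.1 / 2) (p.2 + ρ p.1 / 2)).Nonempty)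
    (fun l => (E l ∩ Icc a b).Nonempty) w (fun p => K * (mass * R p.1 / S)) hw hsw hv
    (by
      intro p hp l hl
      exact hl.mono (Set.inter_subset_inter_right _ (hsub p hp)))
    (by
      rintro l i hi j hj hij ⟨u, huE, hu⟩ ⟨v, hvE, hv'⟩ T' hT' hmet
      have huv := hE l u huE v hvE
      have hRi := hR0 i.1
      have hRj := hR0 j.1
      have hci := hchild i hi
      have hcj := hchild j hj
      have hdij := hT2 i hi j hj hij
      -- δ l > 0
      have hxy : |i.2 - j.2| ≤ R i.1 / 2 + δ l + R j.1 / 2 := by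
        have e1 := abs_le.1 huv
        rw [abs_le]
        constructor <;> linarith [hu.1, hu.2, hv'.1, hv'.2, e1.1, e1.2]
      have hδl : 0 < δ l := by linarith
      -- each child met by E l has radius < 2 δ
      have hrad : ∀ p ∈ T', R p.1 ≤ 2 * δ l := by
        intro p hp
        -- some other child
        obtain ⟨q, hq, hqp, z, hzE, hz⟩ : ∃ q ∈ T, q ≠ p ∧
            (E l ∩ Icc (q.2 - ρ q.1 / 2) (q.2 + ρ q.1 / 2)).Nonempty := by
          by_cases hip : i = p
          · exact ⟨j, hj, by rw [← hip]; exact hij.symm, v, hvE, hv'⟩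
          · exact ⟨i, hi, hip, u, huE, hu⟩
        obtain ⟨z', hz'E, hz'⟩ := hmet p hp
        have hzz := abs_le.1 (hE l z hzE z' hz'E)
        have hcp := hchild p (hT' hp)
        have hcq := hchild q hq
        have hd := hT2 q hq p (hT' hp) hqp
        have hxy : |q.2 - p.2| ≤ R q.1 / 2 + δ l + R p.1 / 2 := by
          rw [abs_le]
          constructor <;> linarith [hz.1, hz.2, hz'.1, hz'.2, hzz.1, hzz.2]
        have := hR0 q.1
        linarith
      have hsumR : ∑ p ∈ T', R p.1 ≤ 4 * δ l := by
        refine sum_radii_le T' R u (4 * δ l) (by linarith) (fun p _ => hR0 p.1)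
          (fun p hp p' hp' hne => hT2 p (hT' hp) p' (hT' hp') hne) ?_
        intro p hp
        obtain ⟨z', hz'E, hz'⟩ := hmet p hp
        have hzz := abs_le.1 (hE l u huE z' hz'E)
        have hcp := hchild p (hT' hp)
        have hr := hrad p hp
        have : |p.2 - u| ≤ ρ p.1 / 2 + δ l := by
          rw [abs_le]
          constructor <;> linarith [hz'.1, hz'.2, hzz.1, hzz.2]
        linarith
      have hsumS : ∑ p ∈ T', R p.1 ≤ S := by
        rw [hS]
        exact Finset.sum_le_sum_of_subset_of_nonneg hT' (fun p _ _ => (hR0 p.1).le)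
      have hsumeq : ∑ p ∈ T', K * (mass * R p.1 / S) = K * mass / S * ∑ p ∈ T', R p.1 := by
        rw [Finset.mul_sum]
        apply Finset.sum_congr rfl
        intros
        ring
      refine le_trans ?_ (hgδ l hδl)
      rw [hsumeq]
      have hi := hinv (δ l) hδl (hδ l).2
      have hKm : 0 < K * mass := by positivity
      have hgδ0 := hgpos (δ l) hδl
      by_cases hcase : δ l / (b - a) ≤ 1
      · rw [min_eq_left hcase, hK'] at hi
        have hi2 : 200 * K / (c * σ) * mass * (δ l / (b - a)) ≤ g (δ l) := by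
          have : Cg * (200 * K / (c * σ) * mass * (δ l / (b - a))) ≤ Cg * g (δ l) := by
            refine le_trans (le_of_eq ?_) hi
            ring
          exact le_of_mul_le_mul_left this hCg0
        refine le_trans ?_ hi2
        have e1 : K * mass / S * ∑ p ∈ T', R p.1 ≤ K * mass / S * (4 * δ l) :=
          mul_le_mul_of_nonneg_left hsumR (by positivity)
        refine le_trans e1 ?_
        have e2 : K * mass / S ≤ K * mass / (c * σ * (b - a) / 32) :=
          div_le_div_of_nonneg_left hKm.le (by positivity) hS1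
        have e3 : K * mass / S * (4 * δ l) ≤ K * mass / (c * σ * (b - a) / 32) * (4 * δ l) :=
          mul_le_mul_of_nonneg_right e2 (by positivity)
        refine le_trans e3 ?_
        have e4 : K * mass / (c * σ * (b - a) / 32) * (4 * δ l) =
            128 * (K * mass * δ l / (c * σ * (b - a))) := by
          field_simp
          ring
        have e5 : 200 * K / (c * σ) * mass * (δ l / (b - a)) =
            200 * (K * mass * δ l / (c * σ * (b - a))) := by
          field_simp
        rw [e4, e5]
        have e6 : 0 ≤ K * mass * δ l / (c * σ * (b - a)) := by positivity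
        linarith
      · push Not at hcase
        rw [min_eq_right hcase.le, hK'] at hi
        have hi2 : 200 * K / (c * σ) * mass ≤ g (δ l) := by
          have : Cg * (200 * K / (c * σ) * mass) ≤ Cg * g (δ l) := by
            refine le_trans (le_of_eq ?_) hi
            ring
          exact le_of_mul_le_mul_left this hCg0
        refine le_trans ?_ hi2
        have e1 : K * mass / S * ∑ p ∈ T', R p.1 ≤ K * mass / S * S :=
          mul_le_mul_of_nonneg_left hsumS (by positivity)
        refine le_trans e1 ?_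
        have e2 : K * mass / S * S = K * mass := by field_simp
        rw [e2]
        have e3 : 200 * K / (c * σ) * mass = 200 * (K * mass) / (c * σ) := by ring
        rw [e3, le_div_iff₀ hcσ0]
        nlinarith)
    (by
      have : ∑ p ∈ T, K * (mass * R p.1 / S) = K * mass := by
        have h : ∑ p ∈ T, K * (mass * R p.1 / S) = K * mass / S * ∑ p ∈ T, R p.1 := by
          rw [Finset.mul_sum]
          apply Finset.sum_congr rfl
          intros
          ring
        rw [h, ← hS]
        field_simp
      rw [this]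
      exact hweight)
  -- the chosen child
  have hcp := hchild p hp
  have hTp := hT1 p hp
  have hρp := hρ p.1
  have hRp := hR0 p.1
  refine ⟨p.2 - ρ p.1 / 2, p.2 + ρ p.1 / 2, mass * R p.1 / S, ?_, ?_, ?_, ?_, ?_, ?_, hpw,
    p.1, le_trans (le_max_left _ _) hTp.1, p.2, hTp.2.1, ?_⟩
  · linarith [hTp.2.2.1]
  · linarith
  · linarith [hTp.2.2.2]
  · positivity
  · rw [div_le_iff₀ hS0]
    have : R p.1 ≤ S / 2 := by linarith [hcp.2]
    nlinarith
  · intro r hr hr0
    have hlen : p.2 + ρ p.1 / 2 - (p.2 - ρ p.1 / 2) = ρ p.1 := by ring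
    rw [hlen]
    have hkey : K' * (mass * R p.1 / S) ≤ g (ρ p.1) := by
      have e1 : mass * R p.1 / S ≤ mass * (g (ρ p.1) / η) / (c * σ * (b - a) / 32) := by
        apply div_le_div₀
        · have := hgpos _ hρp
          positivity
        · exact mul_le_mul_of_nonneg_left (hR2 p.1) hmass.le
        · positivity
        · exact hS1
      have e2 : K' * (mass * R p.1 / S) ≤
          K' * (mass * (g (ρ p.1) / η) / (c * σ * (b - a) / 32)) :=
        mul_le_mul_of_nonneg_left e1 hK'0.le
      refine le_trans e2 (le_of_eq ?_)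
      rw [hη]
      field_simp
    have hKm0 : 0 ≤ K' * (mass * R p.1 / S) := by positivity
    by_cases hrr : ρ p.1 ≤ r
    · rw [min_eq_right ((one_le_div hρp).2 hrr), mul_one]
      have h1 := hgmono _ _ hρp hrr
      have h2 := hgpos r hr
      nlinarith
    · push Not at hrr
      rw [min_eq_left ((div_le_one hρp).2 hrr.le)]
      have h1 := hgquasi r (ρ p.1) hr hrr.le
      have h2 : K' * (mass * R p.1 / S) * (r / ρ p.1) ≤ g (ρ p.1) * (r / ρ p.1) :=
        mul_le_mul_of_nonneg_right hkey (by positivity)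
      refine le_trans h2 ?_
      have h3 : g (ρ p.1) * (r / ρ p.1) = g (ρ p.1) / ρ p.1 * r := by ring
      have h4 : Cg * g r = Cg * (g r / r) * r := by field_simp
      rw [h3, h4]
      exact mul_le_mul_of_nonneg_right h1 hr.le
  · intro t ht
    rw [abs_lt]
    constructor <;> linarith [ht.1, ht.2]

end H913R3.MH
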