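import Pool.Agent.H934R3.NP.Stmts

/-!
MP_7c725c_an: Newton's theorem from the identities on the sphere (Task H3).
-/

set_option autoImplicit false
set_option maxHeartbeats 4000000

open MeasureTheory Set Filter Topology
open scoped ENNReal NNReal

namespace Pool.Agent.H934R3.NP

namespace H3x

/-- the defining function of the sphere -/
noncomputable def gs (c : E) (r : ℝ) (z : E) : ℝ := ‖z - c‖ ^ 2 - r ^ 2

lemma gs_hasGradient (c : E) (r : ℝ) (z : E) : HasGradientAt (gs c r) ((2 : ℝ) • (z - c)) z := by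
  rw [hasGradientAt_iff_hasFDerivAt]
  have h1 : HasFDerivAt (fun z : E => z - c) (ContinuousLinearMap.id ℝ E) z :=
    (hasFDerivAt_id z).sub_const c
  have h2 := h1.norm_sq
  have h3 := h2.sub_const (r ^ 2)
  refine h3.congr_fderiv ?_
  ext w
  simp [InnerProductSpace.toDual_apply_apply, inner_smul_left]

lemma gs_gradient (c : E) (r : ℝ) (z : E) : gradient (gs c r) z = (2 : ℝ) • (z - c) :=
  (gs_hasGradient c r z).gradient

lemma gs_zero_iff (c : E) (r : ℝ) (hr : 0 < r) (z : E) : gs c r z = 0 ↔ ‖z - c‖ = r := by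
  unfold gs
  rw [sub_eq_zero, sq_eq_sq₀ (norm_nonneg _) hr.le]

lemma gs_surf (c : E) (r : ℝ) (hr : 0 < r) : Surf (gs c r) := by
  refine ⟨?_, ?_, ?_, ?_⟩
  · unfold gs
    exact ((contDiff_id.sub contDiff_const).norm_sq ℝ).sub contDiff_const
  · intro x hx hg
    rw [gs_gradient] at hg
    rw [gs_zero_iff c r hr] at hx
    have : x - c = 0 := by
      rcases smul_eq_zero.1 hg with h | h
      · norm_num at h
      · exact h
    rw [this, norm_zero] at hx
    linarith
  · refine ⟨‖c‖ + r + 1, fun x hx => ?_⟩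
    have h1 : ‖x‖ ≤ ‖x - c‖ + ‖c‖ := by
      have := norm_add_le (x - c) c
      simpa using this
    have h2 : r < ‖x - c‖ := by linarith
    unfold gs
    nlinarith
  · refine ⟨c + r • EuclideanSpace.single (0 : Fin 3) (1 : ℝ), ?_⟩
    show gs c r _ = 0
    rw [gs_zero_iff c r hr]
    simp [norm_smul, abs_of_pos hr]

lemma gs_Om (c : E) (r : ℝ) (hr : 0 < r) : Om (gs c r) = Metric.ball c r := by
  ext z
  simp only [Om, gs, mem_setOf_eq, Metric.mem_ball, dist_eq_norm, sub_neg]
  exact sq_lt_sq₀ (norm_nonneg _) hr.le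

lemma ae_sphere (c : E) (r : ℝ) (hr : 0 < r) : ∀ᵐ z ∂(sig (gs c r)), ‖z - c‖ = r := by
  unfold sig
  apply Measure.ae_smul_measure
  have hm : MeasurableSet {z : E | gs c r z = 0} := by
    have : Continuous (gs c r) := (gs_surf c r hr).smooth.continuous
    exact (isClosed_eq this continuous_const).measurableSet
  filter_upwards [ae_restrict_mem hm] with z hz
  exact (gs_zero_iff c r hr z).1 hz

end H3x

open H3x

theorem taskH3 : TaskH3 := by
  intro hGreen hDivk _ c r hr x hx v
  have hS := gs_surf c r hr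
  have hxr : ‖x - c‖ = r := by
    rw [← dist_eq_norm]; exact hx
  have hxS : x ∈ Sg (gs c r) := (gs_zero_iff c r hr x).2 hxr
  have hD := hDivk (gs c r) hS x v
  have hG := hGreen (gs c r) hS (fun z => inner ℝ (z - c) v)
    ((contDiff_id.sub contDiff_const).inner ℝ contDiff_const) x hxS
  rw [gs_Om c r hr] at hD hG
  have hae := ae_sphere c r hr
  have hfd : ∀ z w : E, fderiv ℝ (fun z : E => inner ℝ (z - c) v) z w = inner ℝ w v := by
    intro z w
    have h1 : HasFDerivAt (fun z : E => z - c) (ContinuousLinearMap.id ℝ E) z :=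
      (hasFDerivAt_id z).sub_const c
    have h2 := h1.inner ℝ (hasFDerivAt_const v z)
    rw [h2.fderiv]
    simp
  simp only [hfd] at hG
  have e1 : ∫ z, G (z - x) * inner ℝ (nu (gs c r) z) v ∂(sig (gs c r)) =
      (1 / r) * ∫ z, G (z - x) * inner ℝ (z - c) v ∂(sig (gs c r)) := by
    rw [← integral_const_mul]
    apply integral_congr_ae
    filter_upwards [hae] with z hz
    have : nu (gs c r) z = (1 / r) • (z - c) := by
      unfold nu
      rw [gs_gradient, norm_smul, hz, smul_smul]
      congr 1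
      rw [Real.norm_eq_abs, abs_of_pos (by norm_num : (0 : ℝ) < 2)]
      field_simp
    rw [this, inner_smul_left]
    simp
    ring
  have e2 : ∫ z, inner ℝ (z - c) v * ks (gs c r) z x ∂(sig (gs c r)) =
      (1 / (2 * r)) * ∫ z, G (z - x) * inner ℝ (z - c) v ∂(sig (gs c r)) := by
    rw [← integral_const_mul]
    apply integral_congr_ae
    filter_upwards [hae] with z hz
    have hin : inner ℝ (z - x) (z - c) = ‖z - x‖ ^ 2 / 2 := by
      have h1 : x - c = (z - c) - (z - x) := by abel
      have h2 : ‖x - c‖ ^ 2 = ‖z - c‖ ^ 2 - 2 * inner ℝ (z - c) (z - x) + ‖z - x‖ ^ 2 := by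
        rw [h1]; exact norm_sub_sq_real _ _
      rw [hxr, hz, real_inner_comm] at h2
      linarith
    have : ks (gs c r) z x = 1 / (2 * r) * G (z - x) := by
      unfold ks G
      rw [gs_gradient, inner_smul_right, norm_smul, hz, hin, Real.norm_eq_abs,
        abs_of_pos (by norm_num : (0 : ℝ) < 2)]
      by_cases h0 : ‖z - x‖ = 0
      · rw [h0]; simp
      · field_simp
    show inner ℝ (z - c) v * ks (gs c r) z x = _
    rw [this]
    ring
  rw [e1] at hD
  rw [e2] at hG
  rw [hG] at hD ⊢
  have hr0 : r ≠ 0 := hr.ne'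
  field_simp at hD ⊢
  linarith

end Pool.Agent.H934R3.NP
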