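import Pool.Agent.H197R3.SF.Stmts

set_option autoImplicit false

/-! Task YOUNG of project H197-SF. -/

namespace Pool.Agent.H722R5.SFYoung

open MeasureTheory Filter Topology Set
open scoped ENNReal

/-- Cauchy-Schwarz for the measure `G ds` -/
theorem cs (G U : ℝ → ℝ≥0∞) (hG : AEMeasurable G volume) (hU : AEMeasurable U volume) :
    (∫⁻ s, G s * U s) ^ (2 : ℝ) ≤ (∫⁻ s, G s) * ∫⁻ s, G s * U s ^ (2 : ℝ) := by
  have h := ENNReal.lintegral_mul_le_Lp_mul_Lq volume Real.HolderConjugate.two_two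
    (f := fun s => G s ^ (1 / 2 : ℝ)) (g := fun s => G s ^ (1 / 2 : ℝ) * U s)
    (hG.pow_const _) ((hG.pow_const _).mul hU)
  have e0 : ∀ s, G s ^ (1 / 2 : ℝ) * G s ^ (1 / 2 : ℝ) = G s := by
    intro s
    rw [← ENNReal.rpow_add_of_nonneg _ _ (by norm_num) (by norm_num)]
    norm_num
  have e1 : ∫⁻ s, ((fun s => G s ^ (1 / 2 : ℝ)) * (fun s => G s ^ (1 / 2 : ℝ) * U s)) s =
      ∫⁻ s, G s * U s := by
    refine lintegral_congr fun s => ?_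
    simp only [Pi.mul_apply]
    rw [← mul_assoc, e0]
  have e2 : ∫⁻ s, (G s ^ (1 / 2 : ℝ)) ^ (2 : ℝ) = ∫⁻ s, G s := by
    refine lintegral_congr fun s => ?_
    rw [← ENNReal.rpow_mul]
    norm_num
  have e3 : ∫⁻ s, (G s ^ (1 / 2 : ℝ) * U s) ^ (2 : ℝ) = ∫⁻ s, G s * U s ^ (2 : ℝ) := by
    refine lintegral_congr fun s => ?_
    rw [ENNReal.mul_rpow_of_nonneg _ _ (by norm_num), ← ENNReal.rpow_mul]
    norm_num
  rw [e1, e2, e3] at h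
  calc (∫⁻ s, G s * U s) ^ (2 : ℝ) ≤
      ((∫⁻ s, G s) ^ (1 / 2 : ℝ) * (∫⁻ s, G s * U s ^ (2 : ℝ)) ^ (1 / 2 : ℝ)) ^ (2 : ℝ) :=
        ENNReal.rpow_le_rpow h (by norm_num)
    _ = (∫⁻ s, G s) * ∫⁻ s, G s * U s ^ (2 : ℝ) := by
        rw [ENNReal.mul_rpow_of_nonneg _ _ (by norm_num), ← ENNReal.rpow_mul, ← ENNReal.rpow_mul]
        norm_num

theorem sub_meas {u : ℝ → ℂ} (hu : AEStronglyMeasurable u volume) :
    AEStronglyMeasurable (fun p : ℝ × ℝ => u (p.1 - p.2)) (volume.prod volume) :=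
  hu.comp_quasiMeasurePreserving
    (quasiMeasurePreserving_sub_of_right_invariant (volume : Measure ℝ) (volume : Measure ℝ))

theorem sub_meas_left {u : ℝ → ℂ} (hu : AEStronglyMeasurable u volume) (t : ℝ) :
    AEStronglyMeasurable (fun s : ℝ => u (t - s)) volume :=
  hu.comp_quasiMeasurePreserving
    (quasiMeasurePreserving_sub_left_of_right_invariant (volume : Measure ℝ) t)

/-- the main estimate -/
theorem est {g u : ℝ → ℂ} (hg : AEStronglyMeasurable g volume)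
    (hu : AEStronglyMeasurable u volume) :
    ∫⁻ t, (∫⁻ s, ‖g s‖ₑ * ‖u (t - s)‖ₑ) ^ (2 : ℝ) ≤
      (∫⁻ s, ‖g s‖ₑ) * ((∫⁻ s, ‖g s‖ₑ) * ∫⁻ t, ‖u t‖ₑ ^ (2 : ℝ)) := by
  have hG : AEMeasurable (fun s => ‖g s‖ₑ) volume := hg.enorm
  have hprod : AEMeasurable (fun p : ℝ × ℝ => ‖g p.2‖ₑ * ‖u (p.1 - p.2)‖ₑ ^ (2 : ℝ))
      (volume.prod volume) := by
    have h1 : AEStronglyMeasurable (fun p : ℝ × ℝ => g p.2) (volume.prod volume) :=
      hg.comp_snd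
    exact h1.enorm.mul ((sub_meas hu).enorm.pow_const _)
  calc ∫⁻ t, (∫⁻ s, ‖g s‖ₑ * ‖u (t - s)‖ₑ) ^ (2 : ℝ) ≤
      ∫⁻ t, (∫⁻ s, ‖g s‖ₑ) * ∫⁻ s, ‖g s‖ₑ * ‖u (t - s)‖ₑ ^ (2 : ℝ) :=
        lintegral_mono fun t => cs _ _ hG (sub_meas_left hu t).enorm
    _ = (∫⁻ s, ‖g s‖ₑ) * ∫⁻ t, ∫⁻ s, ‖g s‖ₑ * ‖u (t - s)‖ₑ ^ (2 : ℝ) :=
        lintegral_const_mul'' _ hprod.lintegral_prod_right'
    _ = (∫⁻ s, ‖g s‖ₑ) * ∫⁻ s, ∫⁻ t, ‖g s‖ₑ * ‖u (t - s)‖ₑ ^ (2 : ℝ) := by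
        rw [lintegral_lintegral_swap hprod]
    _ = (∫⁻ s, ‖g s‖ₑ) * ∫⁻ s, ‖g s‖ₑ * ∫⁻ t, ‖u t‖ₑ ^ (2 : ℝ) := by
        congr 1
        refine lintegral_congr fun s => ?_
        have hm : AEMeasurable (fun t : ℝ => ‖u (t - s)‖ₑ ^ (2 : ℝ)) volume := by
          have h1 : AEStronglyMeasurable (fun t : ℝ => u (t - s)) volume :=
            hu.comp_quasiMeasurePreserving
              (measurePreserving_sub_right (volume : Measure ℝ) s).quasiMeasurePreserving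
          exact h1.enorm.pow_const _
        rw [lintegral_const_mul'' _ hm]
        congr 1
        exact lintegral_sub_right_eq_self (fun t => ‖u t‖ₑ ^ (2 : ℝ)) s
    _ = (∫⁻ s, ‖g s‖ₑ) * ((∫⁻ s, ‖g s‖ₑ) * ∫⁻ t, ‖u t‖ₑ ^ (2 : ℝ)) := by
        rw [lintegral_mul_const'' _ hG]

theorem taskYoung : Pool.Agent.H197R3.SF.TaskYoung := by
  intro g u hg hu
  have hgm := hg.1
  have hum := hu.1
  set N1 : ℝ≥0∞ := ∫⁻ s, ‖g s‖ₑ with hN1
  have hN1t : N1 ≠ ∞ := hg.2.ne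
  have hu2 : eLpNorm u 2 volume = (∫⁻ t, ‖u t‖ₑ ^ (2 : ℝ)) ^ (1 / 2 : ℝ) := by
    rw [eLpNorm_eq_lintegral_rpow_enorm_toReal (by norm_num) (by norm_num)]
    simp
  have hut : eLpNorm u 2 volume ≠ ∞ := hu.2.ne
  have hest := est hgm hum
  have hN2t : ∫⁻ t, ‖u t‖ₑ ^ (2 : ℝ) ≠ ∞ := by
    intro h
    rw [h] at hu2
    rw [hu2] at hut
    apply hut
    rw [ENNReal.top_rpow_of_pos (by norm_num)]
  have hfin : ∫⁻ t, (∫⁻ s, ‖g s‖ₑ * ‖u (t - s)‖ₑ) ^ (2 : ℝ) ≠ ∞ := by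
    refine ne_top_of_le_ne_top ?_ hest
    exact ENNReal.mul_ne_top hN1t (ENNReal.mul_ne_top hN1t hN2t)
  have hKm : AEMeasurable (fun t => ∫⁻ s, ‖g s‖ₑ * ‖u (t - s)‖ₑ) volume := by
    have h1 : AEStronglyMeasurable (fun p : ℝ × ℝ => g p.2) (volume.prod volume) :=
      hgm.comp_snd
    have h2 : AEMeasurable (fun p : ℝ × ℝ => ‖g p.2‖ₑ * ‖u (p.1 - p.2)‖ₑ)
      (volume.prod volume) := h1.enorm.mul (sub_meas hum).enorm
    exact h2.lintegral_prod_right'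
  have hmeas : AEStronglyMeasurable (fun t => ∫ s, g s * u (t - s)) volume := by
    have h1 : AEStronglyMeasurable (fun p : ℝ × ℝ => g p.2) (volume.prod volume) :=
      hgm.comp_snd
    exact (h1.mul (sub_meas hum)).integral_prod_right'
  have hle : eLpNorm (fun t => ∫ s, g s * u (t - s)) 2 volume ≤ N1 * eLpNorm u 2 volume := by
    have h1 : eLpNorm (fun t => ∫ s, g s * u (t - s)) 2 volume =
        (∫⁻ t, ‖∫ s, g s * u (t - s)‖ₑ ^ (2 : ℝ)) ^ (1 / 2 : ℝ) := by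
      rw [eLpNorm_eq_lintegral_rpow_enorm_toReal (by norm_num) (by norm_num)]
      simp
    rw [h1, hu2]
    calc (∫⁻ t, ‖∫ s, g s * u (t - s)‖ₑ ^ (2 : ℝ)) ^ (1 / 2 : ℝ) ≤
        (N1 * (N1 * ∫⁻ t, ‖u t‖ₑ ^ (2 : ℝ))) ^ (1 / 2 : ℝ) := by
          apply ENNReal.rpow_le_rpow _ (by norm_num)
          refine le_trans ?_ hest
          refine lintegral_mono fun t => ?_
          apply ENNReal.rpow_le_rpow _ (by norm_num)
          refine (enorm_integral_le_lintegral_enorm _).trans (le_of_eq ?_)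
          refine lintegral_congr fun s => ?_
          rw [enorm_mul]
      _ = N1 * (∫⁻ t, ‖u t‖ₑ ^ (2 : ℝ)) ^ (1 / 2 : ℝ) := by
          rw [← mul_assoc, ENNReal.mul_rpow_of_nonneg _ _ (by norm_num),
            ENNReal.mul_rpow_of_nonneg _ _ (by norm_num),
            ← ENNReal.rpow_add_of_nonneg _ _ (by norm_num) (by norm_num)]
          norm_num
  refine ⟨⟨hmeas, lt_of_le_of_lt hle (ENNReal.mul_lt_top hN1t.lt_top hut.lt_top)⟩, ?_, ?_⟩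
  · have h1 : (∫ s, ‖g s‖) = N1.toReal := integral_norm_eq_lintegral_enorm hgm
    rw [h1, ← ENNReal.toReal_mul]
    exact ENNReal.toReal_mono (ENNReal.mul_ne_top hN1t hut) hle
  · have h1 : ∀ᵐ t, (∫⁻ s, ‖g s‖ₑ * ‖u (t - s)‖ₑ) ^ (2 : ℝ) < ∞ :=
      ae_lt_top' (hKm.pow_const _) hfin
    filter_upwards [h1] with t ht
    refine ⟨hgm.mul (sub_meas_left hum t), ?_⟩
    have h2 : ∫⁻ s, ‖g s‖ₑ * ‖u (t - s)‖ₑ < ∞ := by
      rw [lt_top_iff_ne_top]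
      intro h
      rw [h, ENNReal.top_rpow_of_pos (by norm_num)] at ht
      exact lt_irrefl _ ht
    show ∫⁻ s, ‖g s * u (t - s)‖ₑ < ∞
    refine lt_of_le_of_lt (le_of_eq ?_) h2
    refine lintegral_congr fun s => ?_
    rw [enorm_mul]

end Pool.Agent.H722R5.SFYoung
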